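import Pool.Agent.Q122.SP.All

set_option autoImplicit false

/-!
# Small split primes: the exceptional imaginary quadratic fields are very few

Let `Q` be a set of primes with at least `κ y ^ ρ / log y` elements up to `y`, where `0 < ρ ≤ 1`;
for `ρ = 1` this is a positive proportion of the primes, and `Q` may be the set of all primes.

(1) Let `A ρ > 1`. There is `c > 0` such that all but `K X ^ (1 - ρ + 1 / A + ε)` of the
negative fundamental discriminants `d` with `|d| ≤ X` have the following property: for all `y` with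
`(log |d|) ^ A ≤ y ≤ |d| ^ c` at once, half of the primes `p ≤ y` in `Q` split in the field of
discriminant `d`, up to the relative error `η`.

(2) Let `ρ > 1 / 2`. For all but `K X ^ (3 / 2 - ρ + ε)` of the discriminants with `|d| ≤ X` half
of the primes in `Q` below the threshold `(log |d|) ^ 2 (log log |d|) ^ 2` of the question split, up
to the relative error `η`. If `Q` is the set of all primes the number of exceptions is
`O(X ^ (1 / 2 + ε))`, and the number which is counted is `N(d)`.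

The proof joins the modules of the starting project `Y549.SP`, whose untwisted main theorem was
left open there: the primes in `Q` up to `y` are cut into `k` blocks; a large sum of symbols is
large on many blocks, and Heath-Brown's large sieve is applied to the products of blocks.
-/

namespace Pool.Agent.Results.MP_aaa0df_nt.AlmostAllFields

/-- the fundamental discriminants `d < 0`, that is, the discriminants of the imaginary quadratic
fields (as in the frozen statement) -/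
def NegFund (d : ℤ) : Prop := d < 0 ∧ ((d % 4 = 1 ∧ Squarefree d) ∨
  ∃ m : ℤ, d = 4 * m ∧ (m % 4 = 2 ∨ m % 4 = 3) ∧ Squarefree m)

/-- the primes `p ≤ y` in the set `Q` -/
def primesIn (Q : Set ℕ) (y : ℕ) : Set ℕ := {p | p.Prime ∧ p ≤ y ∧ p ∈ Q}

/-- the primes `p ≤ y` in the set `Q` which split in the quadratic field of discriminant `d`: `p`
does not divide `d` and `d` is a square modulo `4 p` (as in the frozen statement) -/
def splitIn (Q : Set ℕ) (d : ℤ) (y : ℕ) : Set ℕ :=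
  {p | p.Prime ∧ p ≤ y ∧ p ∈ Q ∧ ¬ (p : ℤ) ∣ d ∧ ∃ x : ℤ, (4 * (p : ℤ)) ∣ x ^ 2 - d}

/-- at least `κ y ^ ρ / log y` primes `p ≤ y` lie in `Q`, for all large `y`, for some `κ > 0` -/
def Thick (Q : Set ℕ) (ρ : ℝ) : Prop := ∃ κ : ℝ, 0 < κ ∧ ∃ y₀ : ℕ, ∀ y : ℕ, y₀ ≤ y →
  κ * (y : ℝ) ^ ρ ≤ (primesIn Q y).ncard * Real.log y

/-- For all `y` between `(log |d|) ^ A` and `|d| ^ c` half of the primes `p ≤ y` in `Q` split in
the field of discriminant `d`, up to the relative error `η`. -/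
def Half (Q : Set ℕ) (A c η : ℝ) (d : ℤ) : Prop := ∀ y : ℕ, Real.log |(d : ℝ)| ^ A ≤ y →
  (y : ℝ) ≤ |(d : ℝ)| ^ c →
    |2 * ((splitIn Q d y).ncard : ℝ) - (primesIn Q y).ncard| ≤ η * (primesIn Q y).ncard

/-- the threshold `(log |d|) ^ 2 (log log |d|) ^ 2` of the question -/
noncomputable def thr (d : ℤ) : ℝ :=
  Real.log |(d : ℝ)| ^ 2 * Real.log (Real.log |(d : ℝ)|) ^ 2

/-- the number of the primes in `Q` below the threshold which split in the field of discriminant
`d`; `N(d)` of the question if `Q` contains all primes -/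
noncomputable def NQ (Q : Set ℕ) (d : ℤ) : ℕ := Set.ncard {p : ℕ | p.Prime ∧ p ∈ Q ∧
  (p : ℝ) < thr d ∧ ¬ (p : ℤ) ∣ d ∧ ∃ x : ℤ, (4 * (p : ℤ)) ∣ x ^ 2 - d}

/-- the number of the primes in `Q` below the threshold -/
noncomputable def MQ (Q : Set ℕ) (d : ℤ) : ℕ := Set.ncard {p : ℕ | p.Prime ∧ p ∈ Q ∧
  (p : ℝ) < thr d}

theorem result :
    Thick Set.univ 1 ∧
    (∀ (A ρ η ε : ℝ) (Q : Set ℕ), 0 < ρ → ρ ≤ 1 → 1 < A * ρ → 0 < η → 0 < ε → Thick Q ρ →
      ∃ c K : ℝ, 0 < c ∧ 0 < K ∧ ∀ X : ℕ, 1 ≤ X →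
        ({d : ℤ | NegFund d ∧ |d| ≤ X ∧ ¬ Half Q A c η d}.ncard : ℝ) ≤
          K * (X : ℝ) ^ (1 - ρ + 1 / A + ε)) ∧
    (∀ (ρ η ε : ℝ) (Q : Set ℕ), 1 / 2 < ρ → ρ ≤ 1 → 0 < η → 0 < ε → Thick Q ρ →
      ∃ K : ℝ, ∀ X : ℕ, 1 ≤ X →
        ({d : ℤ | NegFund d ∧ |d| ≤ X ∧
          ¬ |2 * (NQ Q d : ℝ) - MQ Q d| ≤ η * MQ Q d}.ncard : ℝ) ≤
            K * (X : ℝ) ^ (3 / 2 - ρ + ε)) :=
  ⟨Pool.Agent.Y549.SP.Fin2.thick_univ,
    fun A ρ η ε Q hρ hρ1 hA hη hε hQ =>
      Pool.Agent.Y549.SP.Fin2.part1 Pool.Agent.Q122.SP.cnt2 A ρ η ε Q hρ hρ1 hA hη hε hQ,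
    fun ρ η ε Q hρ hρ1 hη hε hQ =>
      Pool.Agent.Y549.SP.Fin2.part3 Pool.Agent.Q122.SP.cnt2 ρ η ε Q hρ hρ1 hη hε hQ⟩

end Pool.Agent.Results.MP_aaa0df_nt.AlmostAllFields
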