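import Pool.Agent.Q122.TF.SegsThr

set_option autoImplicit false

/-!
# Small split primes: the values of polynomials in short intervals

Let `0 < τ`, `ε > 0` and `D ≥ 1`.  We consider ALL integer polynomials `f`, squarefree over `ℚ`, of
degree between `1` and `D` and ALL intervals `(A, A + T]` such that the coefficients of `f` and `|A|`
are at most `T ^ (1 / τ)`; `τ > 0` may be small, so the interval may be a short one, and the
polynomial may have large coefficients (for `f = q x + b` the values run through an arithmetic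
progression of length `T` in `[- X, X]`, `X` any fixed power of `T`).  Let `Q` be a set of primes with
at least `κ y ^ ρ / log y` elements up to `y`, `0 < ρ ≤ 1`, for instance the set of all primes (`ρ = 1`).

(1) Let `a ρ > 1`. There are `c, K > 0`, depending only on `D, τ, ε, a, ρ, η, Q`, such that all but
`K T ^ (1 - ρ / 2 + 1 / (2 a) + ε)` of the integers `t` in `(A, A + T]` have the following property: the
discriminant `d` of the field `ℚ(√f(t))` satisfies `|d| ≥ T ^ c`, and for all `y` with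
`(log |d|) ^ a ≤ y ≤ |d| ^ c` at once, half of the primes `p ≤ y` in `Q` split in this field, up to the
relative error `η`.

(2) Let `ρ > 1 / 2`. For all but `K T ^ (5 / 4 - ρ / 2 + ε)` of the integers `t` half of the primes in
`Q` below the threshold `(log |d|) ^ 2 (log log |d|) ^ 2` of the question split. For the set of all
primes there are at most `K T ^ (3 / 4 + ε)` exceptions, and the number which is counted is `N(d)` of
the question if `d < 0`.
-/

namespace Pool.Agent.Results.MP_aaa0df_nt.ShortIntervalFamilies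

open Polynomial

/-- the discriminants of the quadratic fields, and `1` (as in the frozen statement) -/
def Fund (d : ℤ) : Prop := (d % 4 = 1 ∧ Squarefree d) ∨
  ∃ m : ℤ, d = 4 * m ∧ (m % 4 = 2 ∨ m % 4 = 3) ∧ Squarefree m

/-- `d` is the discriminant of the field generated by a square root of the integer `v`. -/
def DiscOf (v d : ℤ) : Prop := Fund d ∧ IsSquare (v * d)

/-- the primes `p ≤ y` in the set `Q` -/
def primesIn (Q : Set ℕ) (y : ℕ) : Set ℕ := {p | p.Prime ∧ p ≤ y ∧ p ∈ Q}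

/-- the primes `p ≤ y` in the set `Q` which split in the quadratic field of discriminant `d`: `p`
does not divide `d` and `d` is a square modulo `4 p` (as in the frozen statement) -/
def splitIn (Q : Set ℕ) (d : ℤ) (y : ℕ) : Set ℕ :=
  {p | p.Prime ∧ p ≤ y ∧ p ∈ Q ∧ ¬ (p : ℤ) ∣ d ∧ ∃ x : ℤ, (4 * (p : ℤ)) ∣ x ^ 2 - d}

/-- at least `κ y ^ ρ / log y` primes `p ≤ y` lie in `Q`, for all large `y`, for some `κ > 0` -/
def Thick (Q : Set ℕ) (ρ : ℝ) : Prop := ∃ κ : ℝ, 0 < κ ∧ ∃ y₀ : ℕ, ∀ y : ℕ, y₀ ≤ y →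
  κ * (y : ℝ) ^ ρ ≤ (primesIn Q y).ncard * Real.log y

/-- For all `y` between `(log |d|) ^ a` and `|d| ^ c` half of the primes `p ≤ y` in `Q` split in
the field of discriminant `d`, up to the relative error `η`. -/
def Half (Q : Set ℕ) (a c η : ℝ) (d : ℤ) : Prop := ∀ y : ℕ, Real.log |(d : ℝ)| ^ a ≤ y →
  (y : ℝ) ≤ |(d : ℝ)| ^ c →
    |2 * ((splitIn Q d y).ncard : ℝ) - (primesIn Q y).ncard| ≤ η * (primesIn Q y).ncard

/-- the threshold `(log |d|) ^ 2 (log log |d|) ^ 2` of the question -/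
noncomputable def thr (d : ℤ) : ℝ :=
  Real.log |(d : ℝ)| ^ 2 * Real.log (Real.log |(d : ℝ)|) ^ 2

/-- the number of the primes in `Q` below the threshold which split in the field of discriminant
`d`; `N(d)` of the question if `Q` contains all primes -/
noncomputable def NQ (Q : Set ℕ) (d : ℤ) : ℕ := Set.ncard {p : ℕ | p.Prime ∧ p ∈ Q ∧
  (p : ℝ) < thr d ∧ ¬ (p : ℤ) ∣ d ∧ ∃ x : ℤ, (4 * (p : ℤ)) ∣ x ^ 2 - d}

/-- the number of the primes in `Q` below the threshold -/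
noncomputable def MQ (Q : Set ℕ) (d : ℤ) : ℕ := Set.ncard {p : ℕ | p.Prime ∧ p ∈ Q ∧
  (p : ℝ) < thr d}

/-- `f` is squarefree over `ℚ`, of degree between `1` and `D`, and its coefficients and `|A|` are at
most `T ^ (1 / τ)`. -/
def Allowed (D : ℕ) (τ : ℝ) (f : ℤ[X]) (A : ℤ) (T : ℕ) : Prop :=
  1 ≤ f.natDegree ∧ f.natDegree ≤ D ∧ Squarefree (f.map (Int.castRingHom ℚ)) ∧
    (∀ i, |(f.coeff i : ℝ)| ^ τ ≤ T) ∧ |(A : ℝ)| ^ τ ≤ T

open Pool.Agent.Q122.TF in
theorem thick_of {Q : Set ℕ} {ρ : ℝ} (hQ : Thick Q ρ) :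
    ∃ κ : ℝ, 0 < κ ∧ ∃ y0 : ℕ, ∀ y : ℕ, y0 ≤ y →
      κ * (y : ℝ) ^ ρ ≤ (PQ Q y).card * Real.log y := by
  obtain ⟨κ, hκ, y0, h⟩ := hQ
  refine ⟨κ, hκ, y0, fun y hy => ?_⟩
  have := h y hy
  unfold primesIn at this
  rwa [ncard_PQ] at this

open Pool.Agent.Q122.TF in
theorem result :
    (∀ (D : ℕ) (a ρ τ η ε : ℝ) (Q : Set ℕ), 1 ≤ D → 0 < ρ → ρ ≤ 1 → 1 < a * ρ → 0 < τ → 0 < η →
      0 < ε → Thick Q ρ → ∃ c K : ℝ, 0 < c ∧ 0 < K ∧
      ∀ (f : ℤ[X]) (A : ℤ) (T : ℕ), 1 ≤ T → Allowed D τ f A T →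
        ∃ E : Finset ℤ, (E.card : ℝ) ≤ K * (T : ℝ) ^ (1 - ρ / 2 + 1 / (2 * a) + ε) ∧
          ∀ t : ℤ, A < t → t ≤ A + T → t ∉ E → f.eval t ≠ 0 ∧
            ∀ d : ℤ, DiscOf (f.eval t) d → (T : ℝ) ^ c ≤ |(d : ℝ)| ∧ Half Q a c η d) ∧
    (∀ (D : ℕ) (ρ τ η ε : ℝ) (Q : Set ℕ), 1 ≤ D → 1 / 2 < ρ → ρ ≤ 1 → 0 < τ → 0 < η → 0 < ε →
      Thick Q ρ → ∃ c K : ℝ, 0 < c ∧ 0 < K ∧
      ∀ (f : ℤ[X]) (A : ℤ) (T : ℕ), 1 ≤ T → Allowed D τ f A T →
        ∃ E : Finset ℤ, (E.card : ℝ) ≤ K * (T : ℝ) ^ (5 / 4 - ρ / 2 + ε) ∧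
          ∀ t : ℤ, A < t → t ≤ A + T → t ∉ E → f.eval t ≠ 0 ∧
            ∀ d : ℤ, DiscOf (f.eval t) d → (T : ℝ) ^ c ≤ |(d : ℝ)| ∧
              |2 * (NQ Q d : ℝ) - MQ Q d| ≤ η * MQ Q d) := by
  constructor
  · intro D a ρ τ η ε Q hD hρ hρ1 ha hτ hη hε hQ
    have ha0 : 0 < a := by
      by_contra h
      have : a * ρ ≤ 0 := mul_nonpos_of_nonpos_of_nonneg (not_lt.1 h) hρ.le
      linarith
    obtain ⟨c, K, hc, hK, h⟩ := segs D hD a ρ τ η ε Q hρ1 ha0 ha hτ hη hε (thick_of hQ)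
    refine ⟨c, K, hc, hK, ?_⟩
    rintro f A T hT ⟨h1, h2, h3, h4, h5⟩
    obtain ⟨E, -, hE2, hE3⟩ := h f A T hT h1 h2 h3 h4 h5
    refine ⟨E, hE2, ?_⟩
    intro t ht1 ht2 htE
    obtain ⟨g1, g2⟩ := hE3 t (Finset.mem_Ioc.2 ⟨ht1, ht2⟩) htE
    refine ⟨g1, ?_⟩
    rintro d ⟨hd, hsq⟩
    obtain ⟨g3, g4⟩ := g2 d hd hsq
    refine ⟨g3, ?_⟩
    intro y hy1 hy2
    have := g4 y hy1 hy2
    rw [← ncard_split, ← ncard_PQ] at this
    exact this
  · intro D ρ τ η ε Q hD hρ hρ1 hτ hη hε hQ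
    obtain ⟨c, K, hc, hK, h⟩ := segs D hD 2 ρ τ η ε Q hρ1 (by norm_num) (by linarith) hτ hη hε
      (thick_of hQ)
    obtain ⟨L0, hL0⟩ := thr_good Q c η hc
    set T1 : ℝ := Real.exp (max L0 0 / c) with hT1
    have hT1p : 0 < T1 := Real.exp_pos _
    refine ⟨c, K + T1, hc, by positivity, ?_⟩
    rintro f A T hT ⟨h1, h2, h3, h4, h5⟩
    have hTr : (1 : ℝ) ≤ T := by exact_mod_cast hT
    have hT0 : (0 : ℝ) < T := by linarith
    have hγ : 1 ≤ (T : ℝ) ^ (5 / 4 - ρ / 2 + ε) := Real.one_le_rpow hTr (by linarith)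
    rcases lt_or_ge (T : ℝ) T1 with hlt | hge
    · refine ⟨Finset.Ioc A (A + T), ?_, fun t ht1 ht2 htE =>
        absurd (Finset.mem_Ioc.2 ⟨ht1, ht2⟩) htE⟩
      rw [Int.card_Ioc]
      have e1 : (((A + T - A).toNat : ℕ) : ℝ) = T := by
        have : (A + T - A).toNat = T := by omega
        rw [this]
      rw [e1]
      calc (T : ℝ) ≤ T1 * 1 := by linarith
        _ ≤ (K + T1) * (T : ℝ) ^ (5 / 4 - ρ / 2 + ε) := by
            apply mul_le_mul _ hγ zero_le_one (by positivity)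
            linarith
    · obtain ⟨E, -, hE2, hE3⟩ := h f A T hT h1 h2 h3 h4 h5
      refine ⟨E, ?_, ?_⟩
      · have e2 : (1 - ρ / 2 + 1 / (2 * 2) + ε : ℝ) = 5 / 4 - ρ / 2 + ε := by ring
        rw [e2] at hE2
        refine hE2.trans ?_
        gcongr
        linarith
      · intro t ht1 ht2 htE
        have hlog : L0 ≤ c * Real.log T := by
          have h6 := Real.log_le_log hT1p hge
          rw [hT1, Real.log_exp, div_le_iff₀ hc] at h6
          have := le_max_left L0 0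
          linarith
        obtain ⟨g1, g2⟩ := hL0 T (f.eval t) hT hlog (hE3 t (Finset.mem_Ioc.2 ⟨ht1, ht2⟩) htE)
        refine ⟨g1, ?_⟩
        rintro d ⟨hd, hsq⟩
        obtain ⟨g3, g4, g5⟩ := g2 d hd hsq
        refine ⟨g3, ?_⟩
        change 0 < Pool.Agent.Q122.TF.thr d at g5
        rw [← ncard_split_lt Q d _ g5, ← ncard_PQ_lt Q _ g5] at g4
        exact g4

end Pool.Agent.Results.MP_aaa0df_nt.ShortIntervalFamilies
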