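import Mathlib
import Pool.Agent.Q84.MB.F4

/-!
# Small split primes in the fields whose discriminant is divisible by a prime of a string

Let `A > 1`, `0 < δ < A - 1`, `0 < δ' < 2` and `κ, η > 0`. There is `c' > 0`, and for every `m` there are `c > 0`
and, for every `Z`, a number `C` with the following property. For every large `X` there is a set `S` of at most
`(log X) ^ (49 / 50)` primes, all larger than `Z`, such that for EVERY function `f` with values `1` and `-1` on the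
primes at least `X ^ (1 - κ)` integers `n`, `X < n ≤ 3X`, satisfy: the interval `[n, n + C]` contains at least `m`
primes, and every prime `p` in it has the following properties.

* The Legendre symbol `(p / q)` is `f q` for all odd primes `q ≤ c log X` outside `S`. So the splitting of all these
  primes in the field `ℚ(√(-p))` is prescribed; they may all be inert, or all split.
* For ALL negative fundamental discriminants `d` divisible by `p` with `|d| ≤ p ^ (1 + δ)`: half of the primes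
  `≤ y` split in the field of discriminant `d`, up to the relative error `η`, for all `y` between `(log |d|) ^ A` and
  `|d| ^ c'`.
* For ALL negative fundamental discriminants `d` divisible by `p` with `|d| ≤ p ^ (2 - δ')`: half of the primes below
  the threshold `(log |d|) ^ 2 (log log |d|) ^ 2` of the question split, up to the relative error `η`.

Method: the number of exceptional discriminants up to `Y` is `O(Y ^ (1 / A + ε))`, respectively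
`O(Y ^ (1 / 2 + ε))` (Heath-Brown's large sieve; starting modules `Y549.SP`), so few primes divide an exceptional
discriminant of the given size; the Maynard-Tao theorem relative to a modulus which is a small power of `X`, in the
form that it avoids arbitrary exceptional sets of size `X ^ (1 - η)` (`Q84/MB/E1-E4`), gives the strings.
-/

set_option autoImplicit false

open scoped Classical

namespace Pool.Agent.Results.MP_aaa0df_nt.StringsOfConductors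

open Finset Filter

/-- the fundamental discriminants `d < 0`, that is, the discriminants of the imaginary quadratic
fields (as in the frozen statement) -/
def NegFund (d : ℤ) : Prop := d < 0 ∧ ((d % 4 = 1 ∧ Squarefree d) ∨
  ∃ m : ℤ, d = 4 * m ∧ (m % 4 = 2 ∨ m % 4 = 3) ∧ Squarefree m)

/-- Half of the primes in `T` split in the quadratic field of discriminant `d` (they do not divide `d`, and `d` is
a square modulo `4 p`, as in the frozen statement), up to the relative error `η`. -/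
def Half (η : ℝ) (d : ℤ) (T : Set ℕ) : Prop :=
  |2 * ({p : ℕ | p.Prime ∧ p ∈ T ∧ ¬ (p : ℤ) ∣ d ∧ ∃ x : ℤ, (4 * (p : ℤ)) ∣ x ^ 2 - d}.ncard : ℝ) -
    {p : ℕ | p.Prime ∧ p ∈ T}.ncard| ≤ η * {p : ℕ | p.Prime ∧ p ∈ T}.ncard

/-- The discriminants of the imaginary quadratic fields divisible by `p`: half of the primes up to `y` split, for all
`y` between `(log |d|) ^ A` and `|d| ^ c`, if `|d| ≤ p ^ (1 + δ)`; half of the primes below the threshold
`(log |d|) ^ 2 (log log |d|) ^ 2` split, if `|d| ≤ p ^ (2 - δ')`. -/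
def Good (A δ δ' η c : ℝ) (p : ℕ) : Prop := ∀ d : ℤ, NegFund d → (p : ℤ) ∣ d →
  (|(d : ℝ)| ≤ (p : ℝ) ^ (1 + δ) → ∀ y : ℕ, Real.log |(d : ℝ)| ^ A ≤ y → (y : ℝ) ≤ |(d : ℝ)| ^ c →
    Half η d {q | q ≤ y}) ∧
  (|(d : ℝ)| ≤ (p : ℝ) ^ (2 - δ') →
    Half η d {q | (q : ℝ) < Real.log |(d : ℝ)| ^ 2 * Real.log (Real.log |(d : ℝ)|) ^ 2})

theorem split_eq (d : ℤ) : {p : ℕ | p.Prime ∧
    p ∈ {q : ℕ | (q : ℝ) < Real.log |(d : ℝ)| ^ 2 * Real.log (Real.log |(d : ℝ)|) ^ 2} ∧ ¬ (p : ℤ) ∣ d ∧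
      ∃ x : ℤ, (4 * (p : ℤ)) ∣ x ^ 2 - d}.ncard = Pool.Agent.Y549.SP.Fin2.NQ Set.univ d := by
  unfold Pool.Agent.Y549.SP.Fin2.NQ Pool.Agent.Y549.SP.Fin2.thr
  congr 1
  ext q
  simp

theorem prime_eq (d : ℤ) : {p : ℕ | p.Prime ∧
    p ∈ {q : ℕ | (q : ℝ) < Real.log |(d : ℝ)| ^ 2 * Real.log (Real.log |(d : ℝ)|) ^ 2}}.ncard =
      Pool.Agent.Y549.SP.Fin2.MQ Set.univ d := by
  unfold Pool.Agent.Y549.SP.Fin2.MQ Pool.Agent.Y549.SP.Fin2.thr
  congr 1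
  ext q
  simp

theorem split_eq' (d : ℤ) (y : ℕ) : {p : ℕ | p.Prime ∧ p ∈ {q : ℕ | q ≤ y} ∧ ¬ (p : ℤ) ∣ d ∧
      ∃ x : ℤ, (4 * (p : ℤ)) ∣ x ^ 2 - d} = Pool.Agent.Y549.SP.splitIn Set.univ d y := by
  unfold Pool.Agent.Y549.SP.splitIn
  ext q
  simp

theorem prime_eq' (y : ℕ) : {p : ℕ | p.Prime ∧ p ∈ {q : ℕ | q ≤ y}} =
    Pool.Agent.Y549.SP.primesIn Set.univ y := by
  unfold Pool.Agent.Y549.SP.primesIn
  ext q
  simp

theorem result (A δ δ' κ η : ℝ) (hA : 1 < A) (hδ : 0 < δ) (hδA : δ < A - 1) (hδ' : 0 < δ') (hδ2 : δ' < 2)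
    (hκ : 0 < κ) (hη : 0 < η) : ∃ c' : ℝ, 0 < c' ∧ ∀ m : ℕ, ∃ c : ℝ, 0 < c ∧
    ∀ Z : ℕ, ∃ C : ℕ, ∃ X₀ : ℝ, ∀ X : ℝ, X₀ ≤ X →
    ∃ S : Finset ℕ, (∀ q ∈ S, q.Prime ∧ Z < q) ∧ (S.card : ℝ) ≤ (Real.log X) ^ (49 / 50 : ℝ) ∧
    ∀ f : ℕ → ℤ, (∀ q, f q = 1 ∨ f q = -1) →
      X ^ (1 - κ) ≤ (((Icc 1 ⌊3 * X⌋₊).filter fun n : ℕ => X < n ∧
        m ≤ ((Icc n (n + C)).filter Nat.Prime).card ∧
        ∀ p ∈ Icc n (n + C), p.Prime → Good A δ δ' η c' p ∧
          ∀ q : ℕ, q.Prime → q ≠ 2 → (q : ℝ) ≤ c * Real.log X → q ∉ S → jacobiSym p q = f q).card : ℝ) := by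
  obtain ⟨ε₁, hε₁⟩ : ∃ ε₁, ε₁ = (1 - (1 + δ) / A) / (2 * (1 + δ)) := ⟨_, rfl⟩
  obtain ⟨ε₂, hε₂⟩ : ∃ ε₂, ε₂ = δ' / 8 := ⟨_, rfl⟩
  have hq : (1 + δ) / A < 1 := by rw [div_lt_one (by linarith)]; linarith
  have hε₁0 : 0 < ε₁ := by
    rw [hε₁]
    apply div_pos (by linarith) (by linarith)
  have hε₂0 : 0 < ε₂ := by rw [hε₂]; positivity
  obtain ⟨c', K₁, hc', hK₁, h1⟩ := Pool.Agent.Y549.SP.Fin2.part1 Pool.Agent.Q122.SP.cnt2 A 1 η ε₁ Set.univ
    one_pos le_rfl (by linarith) hη hε₁0 Pool.Agent.Y549.SP.Fin2.thick_univ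
  obtain ⟨K₂, h2⟩ := Pool.Agent.Y549.SP.Fin2.part3 Pool.Agent.Q122.SP.cnt2 1 η ε₂ Set.univ
    (by norm_num) le_rfl hη hε₂0 Pool.Agent.Y549.SP.Fin2.thick_univ
  obtain ⟨κ', hκ'⟩ : ∃ κ', κ' = min κ (min ((1 - (1 + δ) / A) / 4) (δ' / 8)) := ⟨_, rfl⟩
  have hκ0 : 0 < κ' := by
    rw [hκ']
    exact lt_min hκ (lt_min (by linarith) (by positivity))
  have hκκ : κ' ≤ κ := by rw [hκ']; exact min_le_left _ _
  have hκ1 : κ' ≤ (1 - (1 + δ) / A) / 4 := by rw [hκ']; exact (min_le_right _ _).trans (min_le_left _ _)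
  have hκ2 : κ' ≤ δ' / 8 := by rw [hκ']; exact (min_le_right _ _).trans (min_le_right _ _)
  have hb1 := Pool.Agent.Q84.MB.div_bad (fun d => ¬ Pool.Agent.Y549.SP.Half Set.univ A c' η d) K₁
    (1 - 1 + 1 / A + ε₁) (1 + δ) κ' (by linarith) (by
      have e : (1 - 1 + 1 / A + ε₁) * (1 + δ) = (1 + δ) / A + (1 - (1 + δ) / A) / 2 := by
        rw [hε₁]
        field_simp
        ring
      rw [e]
      linarith) (by positivity) h1
  have hb2 := Pool.Agent.Q84.MB.div_bad (fun d => ¬ |2 * (Pool.Agent.Y549.SP.Fin2.NQ Set.univ d : ℝ) -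
    Pool.Agent.Y549.SP.Fin2.MQ Set.univ d| ≤ η * Pool.Agent.Y549.SP.Fin2.MQ Set.univ d) K₂
    (3 / 2 - 1 + ε₂) (2 - δ') κ' (by linarith) (by rw [hε₂]; nlinarith) (by linarith) h2
  refine ⟨c', hc', fun m => ?_⟩
  obtain ⟨c, hc, hmain⟩ := Pool.Agent.Q84.MB.sym_strings m κ' hκ0
  refine ⟨c, hc, fun Z => ?_⟩
  obtain ⟨C, hC⟩ := hmain Z
  obtain ⟨X₀, hX₀⟩ := eventually_atTop.1 ((hC.and (hb1.and hb2)).and (eventually_ge_atTop (1 : ℝ)))
  refine ⟨C, X₀, fun X hX => ?_⟩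
  obtain ⟨⟨⟨S, hS1, hS2, hS3⟩, hbad1, hbad2⟩, hX1⟩ := hX₀ X hX
  refine ⟨S, hS1, hS2, fun f hf => ?_⟩
  have hP : (((Icc 1 ⌊4 * X⌋₊).filter fun p : ℕ => p.Prime ∧ X < p ∧ ¬ Good A δ δ' η c' p).card : ℝ) ≤
      X ^ (1 - κ') := by
    obtain ⟨P, hPd⟩ : ∃ P, P = (Icc 1 ⌊4 * X⌋₊).filter fun p : ℕ => p.Prime ∧ X < p ∧
      ¬ Good A δ δ' η c' p := ⟨_, rfl⟩
    rw [← hPd]
    have hPm : ∀ p ∈ P, p.Prime ∧ X < p ∧ (p : ℝ) ≤ 4 * X ∧ ¬ Good A δ δ' η c' p := by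
      intro p hp
      rw [hPd, mem_filter, mem_Icc] at hp
      exact ⟨hp.2.1, hp.2.2.1, (Nat.le_floor_iff (by linarith)).1 hp.1.2, hp.2.2.2⟩
    obtain ⟨P1, hP1⟩ : ∃ P1, P1 = P.filter fun p : ℕ => ∃ d : ℤ, Pool.Agent.Y549.SP.NegFund d ∧ (p : ℤ) ∣ d ∧
      |(d : ℝ)| ≤ (p : ℝ) ^ (1 + δ) ∧ ¬ Pool.Agent.Y549.SP.Half Set.univ A c' η d := ⟨_, rfl⟩
    obtain ⟨P2, hP2⟩ : ∃ P2, P2 = P.filter fun p : ℕ => ∃ d : ℤ, Pool.Agent.Y549.SP.NegFund d ∧ (p : ℤ) ∣ d ∧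
      |(d : ℝ)| ≤ (p : ℝ) ^ (2 - δ') ∧ ¬ |2 * (Pool.Agent.Y549.SP.Fin2.NQ Set.univ d : ℝ) -
        Pool.Agent.Y549.SP.Fin2.MQ Set.univ d| ≤ η * Pool.Agent.Y549.SP.Fin2.MQ Set.univ d := ⟨_, rfl⟩
    have hsub : P ⊆ P1 ∪ P2 := by
      intro p hp
      obtain ⟨hpp, hXp, hp4, hg⟩ := hPm p hp
      unfold Good at hg
      push Not at hg
      obtain ⟨d, hd1, hd2, hd3⟩ := hg
      rw [mem_union]
      by_cases h3 : |(d : ℝ)| ≤ (p : ℝ) ^ (1 + δ) → ∀ y : ℕ, Real.log |(d : ℝ)| ^ A ≤ y →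
          (y : ℝ) ≤ |(d : ℝ)| ^ c' → Half η d {q | q ≤ y}
      · right
        obtain ⟨h4, h5⟩ := hd3 h3
        rw [hP2, mem_filter]
        refine ⟨hp, d, hd1, hd2, h4, fun h6 => h5 ?_⟩
        unfold Half
        rw [split_eq, prime_eq]
        exact h6
      · left
        push Not at h3
        obtain ⟨h4, y, hy1, hy2, hy3⟩ := h3
        rw [hP1, mem_filter]
        refine ⟨hp, d, hd1, hd2, h4, fun h6 => hy3 ?_⟩
        have h7 := h6 y hy1 hy2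
        unfold Half
        rw [split_eq', prime_eq']
        exact h7
    have h3 := hbad1 P1 (fun p hp => by
      rw [hP1, mem_filter] at hp
      obtain ⟨h4, h5, h6, -⟩ := hPm p hp.1
      exact ⟨h4, h5, h6, hp.2⟩)
    have h4 := hbad2 P2 (fun p hp => by
      rw [hP2, mem_filter] at hp
      obtain ⟨h4, h5, h6, -⟩ := hPm p hp.1
      exact ⟨h4, h5, h6, hp.2⟩)
    have h5 : (P.card : ℝ) ≤ P1.card + P2.card := by
      exact_mod_cast (card_le_card hsub).trans (card_union_le _ _)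
    linarith
  have h3 := hS3 f hf (Good A δ δ' η c') hP
  have hpow : X ^ (1 - κ) ≤ X ^ (1 - κ') := Real.rpow_le_rpow_of_exponent_le hX1 (by linarith)
  refine hpow.trans (h3.trans (le_of_eq ?_))
  congr!

end Pool.Agent.Results.MP_aaa0df_nt.StringsOfConductors
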