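import Pool.Agent.Q122.SP.All

set_option autoImplicit false

/-!
# Small split primes: all discriminants near the multiples of a sequence

Let `v n ≥ 1` be any sequence of real numbers such that `∑ v n ^ (-t)` converges for all `t > τ`
(`τ = 0` for `v n = 10 ^ n`), let `θ < 1` and let `Q i` be countably many sets of primes with at
least `κ y ^ ρ / log y` elements up to `y`.

(1) Let `A ρ > 1`. All `α > 0` outside a set of Hausdorff dimension at most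
`(1 - ρ + 1 / A + τ) / (1 - θ)` are such that, for every `i` and `η > 0` there is `c > 0` such that,
from some `n` on, for EVERY negative fundamental discriminant `d` with
`| |d| - α v n | ≤ v n ^ θ` and for all `y` with `(log |d|) ^ A ≤ y ≤ |d| ^ c`, half of the primes
`p ≤ y` in `Q i` split in the field of discriminant `d`, up to the relative error `η`.

(2) Let `ρ > 1 / 2`. All `α > 0` outside a set of Hausdorff dimension at most
`(3 / 2 - ρ + τ) / (1 - θ)` are such that, for every `i` and `η > 0`, from some `n` on, for EVERY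
negative fundamental discriminant `d` with `| |d| - α v n | ≤ v n ^ θ` half of the primes in `Q i`
below the threshold `(log |d|) ^ 2 (log log |d|) ^ 2` of the question split, up to the relative
error `η`.
-/

namespace Pool.Agent.Results.MP_aaa0df_nt.WindowsAroundMultiples

/-- the fundamental discriminants `d < 0`, that is, the discriminants of the imaginary quadratic
fields (as in the frozen statement) -/
def NegFund (d : ℤ) : Prop := d < 0 ∧ ((d % 4 = 1 ∧ Squarefree d) ∨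
  ∃ m : ℤ, d = 4 * m ∧ (m % 4 = 2 ∨ m % 4 = 3) ∧ Squarefree m)

/-- the primes `p ≤ y` in the set `Q` -/
def primesIn (Q : Set ℕ) (y : ℕ) : Set ℕ := {p | p.Prime ∧ p ≤ y ∧ p ∈ Q}

/-- the primes `p ≤ y` in the set `Q` which split in the quadratic field of discriminant `d`: `p`
does not divide `d` and `d` is a square modulo `4 p` (as in the frozen statement) -/
def splitIn (Q : Set ℕ) (d : ℤ) (y : ℕ) : Set ℕ :=
  {p | p.Prime ∧ p ≤ y ∧ p ∈ Q ∧ ¬ (p : ℤ) ∣ d ∧ ∃ x : ℤ, (4 * (p : ℤ)) ∣ x ^ 2 - d}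

/-- at least `κ y ^ ρ / log y` primes `p ≤ y` lie in `Q`, for all large `y`, for some `κ > 0` -/
def Thick (Q : Set ℕ) (ρ : ℝ) : Prop := ∃ κ : ℝ, 0 < κ ∧ ∃ y₀ : ℕ, ∀ y : ℕ, y₀ ≤ y →
  κ * (y : ℝ) ^ ρ ≤ (primesIn Q y).ncard * Real.log y

/-- For all `y` between `(log |d|) ^ A` and `|d| ^ c` half of the primes `p ≤ y` in `Q` split in
the field of discriminant `d`, up to the relative error `η`. -/
def Half (Q : Set ℕ) (A c η : ℝ) (d : ℤ) : Prop := ∀ y : ℕ, Real.log |(d : ℝ)| ^ A ≤ y →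
  (y : ℝ) ≤ |(d : ℝ)| ^ c →
    |2 * ((splitIn Q d y).ncard : ℝ) - (primesIn Q y).ncard| ≤ η * (primesIn Q y).ncard

/-- the threshold `(log |d|) ^ 2 (log log |d|) ^ 2` of the question -/
noncomputable def thr (d : ℤ) : ℝ :=
  Real.log |(d : ℝ)| ^ 2 * Real.log (Real.log |(d : ℝ)|) ^ 2

/-- the number of the primes in `Q` below the threshold which split in the field of discriminant
`d`; `N(d)` of the question if `Q` contains all primes -/
noncomputable def NQ (Q : Set ℕ) (d : ℤ) : ℕ := Set.ncard {p : ℕ | p.Prime ∧ p ∈ Q ∧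
  (p : ℝ) < thr d ∧ ¬ (p : ℤ) ∣ d ∧ ∃ x : ℤ, (4 * (p : ℤ)) ∣ x ^ 2 - d}

/-- the number of the primes in `Q` below the threshold -/
noncomputable def MQ (Q : Set ℕ) (d : ℤ) : ℕ := Set.ncard {p : ℕ | p.Prime ∧ p ∈ Q ∧
  (p : ℝ) < thr d}

theorem result :
    Thick Set.univ 1 ∧
    (∀ (A ρ τ θ : ℝ) (Q : ℕ → Set ℕ) (v : ℕ → ℝ), 0 < ρ → ρ ≤ 1 → 1 < A * ρ → 0 ≤ τ → θ < 1 →
      (∀ i, Thick (Q i) ρ) → (∀ n, 1 ≤ v n) →
      (∀ t : ℝ, τ < t → Summable (fun n => v n ^ (-t))) →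
      ∃ E : Set ℝ, dimH E ≤ ENNReal.ofReal ((1 - ρ + 1 / A + τ) / (1 - θ)) ∧
        ∀ α : ℝ, 0 < α → α ∉ E → ∀ (i : ℕ) (η : ℝ), 0 < η → ∃ c : ℝ, 0 < c ∧ ∃ n₀ : ℕ,
          ∀ n : ℕ, n₀ ≤ n → ∀ d : ℤ, NegFund d → |(|(d : ℝ)|) - α * v n| ≤ v n ^ θ →
            Half (Q i) A c η d) ∧
    (∀ (ρ τ θ : ℝ) (Q : ℕ → Set ℕ) (v : ℕ → ℝ), 1 / 2 < ρ → ρ ≤ 1 → 0 ≤ τ → θ < 1 →
      (∀ i, Thick (Q i) ρ) → (∀ n, 1 ≤ v n) →
      (∀ t : ℝ, τ < t → Summable (fun n => v n ^ (-t))) →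
      ∃ E : Set ℝ, dimH E ≤ ENNReal.ofReal ((3 / 2 - ρ + τ) / (1 - θ)) ∧
        ∀ α : ℝ, 0 < α → α ∉ E → ∀ (i : ℕ) (η : ℝ), 0 < η → ∃ n₀ : ℕ, ∀ n : ℕ, n₀ ≤ n →
          ∀ d : ℤ, NegFund d → |(|(d : ℝ)|) - α * v n| ≤ v n ^ θ →
            |2 * (NQ (Q i) d : ℝ) - MQ (Q i) d| ≤ η * MQ (Q i) d) :=
  ⟨Pool.Agent.Y549.SP.Fin2.thick_univ,
    fun A ρ τ θ Q v hρ hρ1 hA hτ hθ hQ hv1 hv =>
      Pool.Agent.Y549.SP.Fin2.part2 Pool.Agent.Q122.SP.cnt2 A ρ τ θ Q v hρ hρ1 hA hτ hθ hQ hv1 hv,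
    fun ρ τ θ Q v hρ hρ1 hτ hθ hQ hv1 hv =>
      Pool.Agent.Y549.SP.Fin2.part4 Pool.Agent.Q122.SP.cnt2 ρ τ θ Q v hρ hρ1 hτ hθ hQ hv1 hv⟩

end Pool.Agent.Results.MP_aaa0df_nt.WindowsAroundMultiples
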